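import Mathlib

namespace Pool.Agent.Results.MP_ebd9af_co.Q1

def IsTournament {V : Type} (T : V → V → Prop) : Prop :=
  Nonempty V ∧ (∀ v, ¬ T v v) ∧ ∀ u v, u ≠ v → (T u v ↔ ¬ T v u)

def Strong {V : Type} (T : V → V → Prop) : Prop := ∀ u v, Relation.ReflTransGen T u v

abbrev Arc {V : Type} (T : V → V → Prop) := {p : V × V // T p.1 p.2}

/-- `C` is the arc set of a directed 4-cycle of `T`. -/
def IsCircuit4 {V : Type} (T : V → V → Prop) (C : Set (Arc T)) : Prop :=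
  ∃ v : Fin 4 → V, Function.Injective v ∧ (∀ i, T (v i) (v (i + 1))) ∧
    C = {e | ∃ i, e.1 = (v i, v (i + 1))}

def IsoOrConverse {V W : Type} (T : V → V → Prop) (U : W → W → Prop) : Prop :=
  ∃ f : V ≃ W, (∀ u v, T u v ↔ U (f u) (f v)) ∨ (∀ u v, T u v ↔ U (f v) (f u))

def L1 : List (Fin 5 × Fin 5) :=
  [(0, 1), (0, 2), (0, 3), (1, 2), (1, 3), (2, 3), (2, 4), (3, 4), (4, 0), (4, 1)]
def T1 (u v : Fin 5) : Prop := (u, v) ∈ L1
def T2 (u v : Fin 5) : Prop := v = u + 1 ∨ v = u + 2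
instance : DecidableRel T1 := fun u v => inferInstanceAs (Decidable ((u, v) ∈ L1))
instance : DecidableRel T2 := fun u v => inferInstanceAs (Decidable (v = u + 1 ∨ v = u + 2))

def ph (p : Fin 5 × Fin 5) : Fin 5 × Fin 5 :=
  if p = (3, 4) then (0, 1) else if p = (4, 0) then (1, 2) else if p = (0, 1) then (2, 3)
  else if p = (1, 2) then (3, 4) else if p = (2, 3) then (4, 0) else if p = (0, 2) then (2, 4)
  else if p = (1, 3) then (3, 0) else if p = (2, 4) then (4, 1) else if p = (4, 1) then (1, 3)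
  else (0, 2)

theorem ph_mem : ∀ p : Fin 5 × Fin 5, T1 p.1 p.2 → T2 (ph p).1 (ph p).2 := by decide +kernel

def phi (e : Arc T1) : Arc T2 := ⟨ph e.1, ph_mem _ e.2⟩

theorem phi_bij : Function.Bijective phi := by decide +kernel

set_option synthInstance.maxSize 4096 in
theorem circ : ∀ a b c d : Fin 5, T1 a b → T1 b c → T1 c d → T1 d a →
    Function.Injective ![a, b, c, d] →
    ∃ x y z w : Fin 5, T2 x y ∧ T2 y z ∧ T2 z w ∧ T2 w x ∧ Function.Injective ![x, y, z, w] ∧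
      ∀ e : Fin 5 × Fin 5, (e = ph (a, b) ∨ e = ph (b, c) ∨ e = ph (c, d) ∨ e = ph (d, a)) ↔
        (e = (x, y) ∨ e = (y, z) ∨ e = (z, w) ∨ e = (w, x)) := by decide +kernel

theorem strong {T : Fin 5 → Fin 5 → Prop} (h : ∀ u, T u (u + 1)) : Strong T := by
  intro u v
  have h0 : Relation.ReflTransGen T u u := Relation.ReflTransGen.refl
  have h1 := h0.tail (h _)
  have h2 := h1.tail (h _)
  have h3 := h2.tail (h _)
  have h4 := h3.tail (h _)
  have : ∀ u v : Fin 5, v = u ∨ v = u + 1 ∨ v = u + 1 + 1 ∨ v = u + 1 + 1 + 1 ∨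
    v = u + 1 + 1 + 1 + 1 := by decide
  rcases this u v with e | e | e | e | e <;> rw [e] <;> assumption

theorem result : ∃ (V W : Type) (_ : Finite V) (_ : Finite W) (T : V → V → Prop)
    (U : W → W → Prop), IsTournament T ∧ IsTournament U ∧ Strong T ∧ Strong U ∧
    (∃ φ : Arc T → Arc U, Function.Bijective φ ∧ ∀ C, IsCircuit4 T C → IsCircuit4 U (φ '' C)) ∧
    ¬ IsoOrConverse T U := by
  refine ⟨Fin 5, Fin 5, inferInstance, inferInstance, T1, T2, ⟨⟨0⟩, by decide, by decide⟩,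
    ⟨⟨0⟩, by decide, by decide⟩, strong (by decide), strong (by decide), ⟨phi, phi_bij, ?_⟩, ?_⟩
  · rintro C ⟨v, hv, ha, rfl⟩
    have hv' : Function.Injective ![v 0, v 1, v 2, v 3] := by
      convert hv; ext i; fin_cases i <;> rfl
    obtain ⟨x, y, z, w, h1, h2, h3, h4, hi, he⟩ := circ _ _ _ _ (ha 0) (ha 1) (ha 2) (ha 3) hv'
    refine ⟨![x, y, z, w], hi, fun i => by fin_cases i <;> assumption, ?_⟩
    ext e
    have e4 : ∀ P : Fin 4 → Prop, (∃ i, P i) ↔ P 0 ∨ P 1 ∨ P 2 ∨ P 3 := fun P => by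
      simp [Fin.exists_fin_succ]
    simp only [Set.mem_image, Set.mem_ofPred_eq]
    rw [e4]
    refine Iff.trans ?_ (he e.1)
    refine Iff.trans ?_ (e4 (fun i => e.1 = ph (v i, v (i + 1))))
    constructor
    · rintro ⟨a, ⟨i, hi⟩, rfl⟩
      exact ⟨i, by rw [← hi]; rfl⟩
    · rintro ⟨i, hi⟩
      exact ⟨⟨(v i, v (i + 1)), ha i⟩, ⟨i, rfl⟩, Subtype.ext hi.symm⟩
  · rintro ⟨f, h | h⟩
    · have : ∀ a b c d : Fin 5, T2 a b → T2 a c → T2 a d → b = c ∨ b = d ∨ c = d := by decide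
      rcases this _ _ _ _ ((h 0 1).1 (by decide)) ((h 0 2).1 (by decide)) ((h 0 3).1 (by decide))
        with e | e | e <;> exact absurd (f.injective e) (by decide)
    · have : ∀ a b c d : Fin 5, T2 b a → T2 c a → T2 d a → b = c ∨ b = d ∨ c = d := by decide
      rcases this _ _ _ _ ((h 0 1).1 (by decide)) ((h 0 2).1 (by decide)) ((h 0 3).1 (by decide))
        with e | e | e <;> exact absurd (f.injective e) (by decide)

end Pool.Agent.Results.MP_ebd9af_co.Q1
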